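import Pool.Agent.R442.LB.Fin

/-!
The O(n) loop model on the honeycomb lattice with a path from `a` to `b`, for all `n ≥ 0`, all
`x > 0` and all domains.  For two finite paths `U`, `U'` with the same ends, the difference
`x^|U'| N_{U→U'} - x^|U| N_{U'→U}` of the weighted numbers of the places of the path, in any given
region, where `U` can be replaced by `U'` and vice versa, has mean zero and Gaussian tails of the
order of the square root of the number of steps, conditionally on the loops.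
-/

set_option autoImplicit false
set_option maxHeartbeats 1000000

namespace Pool.Agent.Results.MP_4960b8_pr.LocalBalance

open scoped ENNReal

/-- Adjacency in the honeycomb lattice (brick-wall coordinates). -/
def Nbr (p q : ℤ × ℤ) : Prop :=
  (p.2 = q.2 ∧ (p.1 - q.1 = 1 ∨ q.1 - p.1 = 1)) ∨
    (p.1 = q.1 ∧ ((q.2 = p.2 + 1 ∧ Even (p.1 + p.2)) ∨ (p.2 = q.2 + 1 ∧ Even (q.1 + q.2))))

/-- `U` is a finite self-avoiding path of the honeycomb lattice, given by the list of its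
vertices. -/
def IsPath (U : List (ℤ × ℤ)) : Prop := U ≠ [] ∧ U.Nodup ∧ U.IsChain Nbr

/-- The configurations in the domain with the set of edges `D`: pairs `(γ, ω)` of a self-avoiding
path `γ` from `a` to `b` (the list of its vertices) with edges in `D`, and a finite set `ω` of edges
of `D` in which every vertex has degree `0` or `2` (the disjoint closed loops) and which has no edge
at the vertices of `γ`. -/
def Conf (D : Set (Sym2 (ℤ × ℤ))) (a b : ℤ × ℤ) :
    Set (List (ℤ × ℤ) × Finset (Sym2 (ℤ × ℤ))) :=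
  {c | (c.1.head? = some a ∧ c.1.getLast? = some b ∧ c.1.Nodup ∧
      c.1.IsChain (fun p q => s(p, q) ∈ D)) ∧
    (∀ e ∈ c.2, e ∈ D) ∧
    (∀ v : ℤ × ℤ, {e | e ∈ c.2 ∧ v ∈ e}.ncard = 0 ∨ {e | e ∈ c.2 ∧ v ∈ e}.ncard = 2) ∧
    ∀ p ∈ c.1, ∀ e ∈ c.2, p ∉ e}

/-- The number of loops: the number of connected components with more than one vertex of the graph
with the edges `ω`. -/
noncomputable def loops (ω : Finset (Sym2 (ℤ × ℤ))) : ℕ :=
  Nat.card {K : (SimpleGraph.fromEdgeSet (ω : Set (Sym2 (ℤ × ℤ)))).ConnectedComponent //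
    ∃ p ∈ K.supp, ∃ q ∈ K.supp, p ≠ q}

/-- The weight `x ^ (total number of edges) * n ^ (number of loops)`, with `0 ^ 0 = 1`. -/
noncomputable def wt (n x : ℝ) (c : List (ℤ × ℤ) × Finset (Sym2 (ℤ × ℤ))) : ℝ≥0∞ :=
  ENNReal.ofReal (x ^ (c.1.length - 1 + c.2.card) * n ^ loops c.2)

/-- The partition function. -/
noncomputable def Z (n x : ℝ) (D : Set (Sym2 (ℤ × ℤ))) (a b : ℤ × ℤ) : ℝ≥0∞ :=
  ∑' c : Conf D a b, wt n x c

/-- The probability of `E`. -/
noncomputable def P (n x : ℝ) (D : Set (Sym2 (ℤ × ℤ))) (a b : ℤ × ℤ)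
    (E : Set (List (ℤ × ℤ) × Finset (Sym2 (ℤ × ℤ)))) : ℝ≥0∞ :=
  (∑' c : (Conf D a b ∩ E : Set (List (ℤ × ℤ) × Finset (Sym2 (ℤ × ℤ)))), wt n x c) / Z n x D a b

/-- The mean of the nonnegative function `g` on the event `E`. -/
noncomputable def mean (n x : ℝ) (D : Set (Sym2 (ℤ × ℤ))) (a b : ℤ × ℤ)
    (E : Set (List (ℤ × ℤ) × Finset (Sym2 (ℤ × ℤ))))
    (g : List (ℤ × ℤ) × Finset (Sym2 (ℤ × ℤ)) → ℕ) : ℝ≥0∞ :=
  (∑' c : (Conf D a b ∩ E : Set (List (ℤ × ℤ) × Finset (Sym2 (ℤ × ℤ)))),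
    wt n x c * (g c : ℝ≥0∞)) / Z n x D a b

/-- `N D R U U' (γ, ω)`: the number of translations `z ∈ R` of the honeycomb lattice (`z₁ + z₂`
even) such that `z + U` is a block of consecutive vertices of `γ`, the edges of the path `z + U'`
are in `D`, and the vertices of `z + U'` which are not on `z + U` are neither on `γ` nor on the
loops.  For two paths with the same ends this is the number of the places in `R` where `U` can be
replaced by `U'` in `γ`. -/
noncomputable def N (D : Set (Sym2 (ℤ × ℤ))) (R : Set (ℤ × ℤ)) (U U' : List (ℤ × ℤ))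
    (c : List (ℤ × ℤ) × Finset (Sym2 (ℤ × ℤ))) : ℕ :=
  Set.ncard {z : ℤ × ℤ | (z ∈ R ∧ Even (z.1 + z.2)) ∧ U.map (z + ·) <:+: c.1 ∧
    (U'.map (z + ·)).IsChain (fun p q => s(p, q) ∈ D) ∧
    ∀ y ∈ U', y ∉ U → z + y ∉ c.1 ∧ ∀ e ∈ c.2, z + y ∉ e}

section

open Pool.Agent.R442.LB
open scoped Classical

/-- the weight of the loops -/
noncomputable def w0 (n x : ℝ) (D : Set (Sym2 (ℤ × ℤ))) (ω : Finset (Sym2 (ℤ × ℤ))) : ℝ≥0∞ :=
  if (∀ e ∈ ω, e ∈ D) ∧
    (∀ v : ℤ × ℤ, {e | e ∈ ω ∧ v ∈ e}.ncard = 0 ∨ {e | e ∈ ω ∧ v ∈ e}.ncard = 2) then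
    ENNReal.ofReal (x ^ ω.card * n ^ loops ω) else 0

theorem sum_eq {n x : ℝ} (hn : 0 ≤ n) (hx : 0 < x) (D : Set (Sym2 (ℤ × ℤ))) (a b : ℤ × ℤ)
    (E : Set (List (ℤ × ℤ) × Finset (Sym2 (ℤ × ℤ))))
    (G : List (ℤ × ℤ) × Finset (Sym2 (ℤ × ℤ)) → ℝ≥0∞) :
    ∑' c : (Conf D a b ∩ E : Set (List (ℤ × ℤ) × Finset (Sym2 (ℤ × ℤ)))), wt n x c * G c =
      ∑' ω, w0 n x D ω * SS D a b x ω (fun γ => if (γ, ω) ∈ E then G (γ, ω) else 0) := by
  rw [tsum_subtype (Conf D a b ∩ E) (fun c => wt n x c * G c), ENNReal.tsum_prod',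
    ENNReal.tsum_comm]
  refine tsum_congr fun ω => ?_
  unfold SS
  rw [← ENNReal.tsum_mul_left]
  refine tsum_congr fun γ => ?_
  rw [Set.indicator_apply]
  unfold w0
  beta_reduce
  by_cases h1 : (∀ e ∈ ω, e ∈ D) ∧
    (∀ v : ℤ × ℤ, {e | e ∈ ω ∧ v ∈ e}.ncard = 0 ∨ {e | e ∈ ω ∧ v ∈ e}.ncard = 2)
  · by_cases h2 : PathIn D a b γ ∧ Av γ ω
    · by_cases h3 : (γ, ω) ∈ E
      · have h4 : (γ, ω) ∈ Conf D a b ∩ E := ⟨⟨h2.1, h1.1, h1.2, h2.2⟩, h3⟩
        rw [if_pos h4, if_pos h1, if_pos h2, if_pos h3, ← mul_assoc,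
          ← ENNReal.ofReal_mul (by positivity)]
        congr 1
        unfold wt
        congr 1
        simp only
        rw [pow_add]
        ring
      · rw [if_neg (fun h => h3 h.2), if_neg h3, mul_zero, ite_self, mul_zero]
    · rw [if_neg (fun h => h2 ⟨h.1.1, h.1.2.2.2⟩), if_neg h2, mul_zero]
  · rw [if_neg (fun h => h1 ⟨h.1.2.1, h.1.2.2.1⟩), if_neg h1, zero_mul]

theorem sum_eq' {n x : ℝ} (hn : 0 ≤ n) (hx : 0 < x) (D : Set (Sym2 (ℤ × ℤ))) (a b : ℤ × ℤ)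
    (E : Set (List (ℤ × ℤ) × Finset (Sym2 (ℤ × ℤ)))) :
    ∑' c : (Conf D a b ∩ E : Set (List (ℤ × ℤ) × Finset (Sym2 (ℤ × ℤ)))), wt n x c =
      ∑' ω, w0 n x D ω * SS D a b x ω (fun γ => ENNReal.ofReal (if (γ, ω) ∈ E then 1 else 0)) := by
  have h := sum_eq hn hx D a b E (fun _ => 1)
  simp only [mul_one] at h
  rw [h]
  refine tsum_congr fun ω => ?_
  congr 2
  funext γ
  split_ifs <;> simp

theorem SS_mono {D : Set (Sym2 (ℤ × ℤ))} {a b : ℤ × ℤ} {x : ℝ} {ω : Finset (Sym2 (ℤ × ℤ))}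
    {g g' : List (ℤ × ℤ) → ℝ≥0∞} (h : ∀ γ, g γ ≤ g' γ) :
    SS D a b x ω g ≤ SS D a b x ω g' := by
  unfold SS
  refine ENNReal.tsum_le_tsum fun γ => ?_
  split_ifs
  · exact mul_le_mul' le_rfl (h γ)
  · exact le_rfl

theorem SS_zero (D : Set (Sym2 (ℤ × ℤ))) (a b : ℤ × ℤ) (x : ℝ) (ω : Finset (Sym2 (ℤ × ℤ))) :
    SS D a b x ω (fun _ => 0) = 0 := by
  unfold SS
  rw [ENNReal.tsum_eq_zero]
  intro γ
  rw [mul_zero, ite_self]

end

/-- **Theorem.** Let `x > 0` and let `U`, `U'` be two self-avoiding paths of the honeycomb lattice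
with the same first vertex and the same last vertex.  There is `c > 0` such that for all `n ≥ 0`,
all domains `D` (sets of edges), all `a ≠ b`, all regions `R` and all sets `S` of loop
configurations, in the O(n) model with the path `γ` from `a` to `b` and the loops `ω`:
(a) `x^|U'|` times the mean of `N_{U→U'}` equals `x^|U|` times the mean of `N_{U'→U}`, on the event
`ω ∈ S`;
(b) for all `l ≥ 1` and `t ≥ 0`, the probability that `ω ∈ S`, `γ` has at most `l` steps and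
`|x^|U'| N_{U→U'} - x^|U| N_{U'→U}| ≥ t` is at most `6 exp (- c t^2 / l)` times the probability that
`ω ∈ S`. -/
theorem result (x : ℝ) (hx : 0 < x) (U U' : List (ℤ × ℤ)) (hU : IsPath U) (hU' : IsPath U')
    (hh : U.head? = U'.head?) (hl : U.getLast? = U'.getLast?) :
    ∃ c : ℝ, 0 < c ∧ ∀ n : ℝ, 0 ≤ n → ∀ D : Set (Sym2 (ℤ × ℤ)),
      (∀ p q : ℤ × ℤ, s(p, q) ∈ D → Nbr p q) → ∀ a b : ℤ × ℤ, a ≠ b →
      ∀ (R : Set (ℤ × ℤ)) (S : Set (Finset (Sym2 (ℤ × ℤ)))),
        ENNReal.ofReal (x ^ U'.length) * mean n x D a b {c | c.2 ∈ S} (N D R U U') =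
          ENNReal.ofReal (x ^ U.length) * mean n x D a b {c | c.2 ∈ S} (N D R U' U) ∧
        ∀ l : ℕ, 1 ≤ l → ∀ t : ℝ, 0 ≤ t →
          P n x D a b {c | c.2 ∈ S ∧ c.1.length - 1 ≤ l ∧
            t ≤ |x ^ U'.length * N D R U U' c - x ^ U.length * N D R U' U c|} ≤
          ENNReal.ofReal (6 * Real.exp (-(c * t ^ 2 / l))) * P n x D a b {c | c.2 ∈ S} := by
  classical
  have hE : Pool.Agent.R442.LB.Ends U U' := ⟨hU.1, hU'.1, hh, hl, hU.2.1, hU'.2.1⟩
  refine ⟨Pool.Agent.R442.LB.cc U U' x, Pool.Agent.R442.LB.cc_pos U U' hx, ?_⟩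
  intro n hn D hD a b hab R S
  have hDs : Pool.Agent.R442.LB.ShortD D := by
    intro p q hpq
    have h := hD p q hpq
    rw [abs_le, abs_le]
    unfold Nbr at h
    omega
  have hN : ∀ (V V' : List (ℤ × ℤ)) (γ : List (ℤ × ℤ)) (ω : Finset (Sym2 (ℤ × ℤ))),
      N D R V V' (γ, ω) =
        Pool.Agent.R442.LB.NR D {z | z ∈ R ∧ Even (z.1 + z.2)} V V' γ ω := by
    intro V V' γ ω
    rfl
  constructor
  · unfold mean
    rw [← mul_div_assoc, ← mul_div_assoc]
    congr 1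
    rw [sum_eq hn hx D a b {c | c.2 ∈ S} (fun c => ((N D R U U' c : ℕ) : ℝ≥0∞)),
      sum_eq hn hx D a b {c | c.2 ∈ S} (fun c => ((N D R U' U c : ℕ) : ℝ≥0∞)),
      ← ENNReal.tsum_mul_left, ← ENNReal.tsum_mul_left]
    refine tsum_congr fun ω => ?_
    by_cases hω : ω ∈ S
    · have h1 := Pool.Agent.R442.LB.bal (ω := ω) hDs hab {z | z ∈ R ∧ Even (z.1 + z.2)} U U' hE hx
      have e : ∀ V V' : List (ℤ × ℤ),
          (fun γ : List (ℤ × ℤ) => if (γ, ω) ∈ {c : List (ℤ × ℤ) × Finset (Sym2 (ℤ × ℤ)) | c.2 ∈ S}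
            then ((N D R V V' (γ, ω) : ℕ) : ℝ≥0∞) else 0) =
          fun γ => ENNReal.ofReal
            (Pool.Agent.R442.LB.NR D {z | z ∈ R ∧ Even (z.1 + z.2)} V V' γ ω : ℝ) := by
        intro V V'
        funext γ
        have : (γ, ω) ∈ {c : List (ℤ × ℤ) × Finset (Sym2 (ℤ × ℤ)) | c.2 ∈ S} := hω
        rw [if_pos this, hN, ENNReal.ofReal_natCast]
      rw [e U U', e U' U, mul_left_comm, h1, mul_left_comm]
    · have e : ∀ V V' : List (ℤ × ℤ),
          (fun γ : List (ℤ × ℤ) => if (γ, ω) ∈ {c : List (ℤ × ℤ) × Finset (Sym2 (ℤ × ℤ)) | c.2 ∈ S}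
            then ((N D R V V' (γ, ω) : ℕ) : ℝ≥0∞) else 0) = fun _ => 0 := by
        intro V V'
        funext γ
        have : (γ, ω) ∉ {c : List (ℤ × ℤ) × Finset (Sym2 (ℤ × ℤ)) | c.2 ∈ S} := hω
        rw [if_neg this]
      rw [e U U', e U' U, SS_zero]
      simp
  · intro l hl1 t ht
    unfold P
    rw [← mul_div_assoc]
    apply ENNReal.div_le_div_right
    rw [sum_eq' hn hx, sum_eq' hn hx, ← ENNReal.tsum_mul_left]
    refine ENNReal.tsum_le_tsum fun ω => ?_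
    rw [mul_left_comm]
    apply mul_le_mul_right
    by_cases hω : ω ∈ S
    · have h1 := Pool.Agent.R442.LB.bad_le (ω := ω) hDs hab {z | z ∈ R ∧ Even (z.1 + z.2)} U U' hE
        hx hl1 ht
      have h3 : Real.exp 1 ≤ 3 := by
        have := Real.exp_one_lt_d9
        linarith
      have h4 : Pool.Agent.R442.LB.cc U U' x * (t ^ 2 / l) =
          Pool.Agent.R442.LB.cc U U' x * t ^ 2 / l := by ring
      have h5 : 2 * Real.exp 1 * Real.exp (-(Pool.Agent.R442.LB.cc U U' x * (t ^ 2 / l))) ≤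
          6 * Real.exp (-(Pool.Agent.R442.LB.cc U U' x * t ^ 2 / l)) := by
        rw [h4]
        apply mul_le_mul_of_nonneg_right _ (Real.exp_pos _).le
        linarith
      refine le_trans (SS_mono ?_) (h1.trans (mul_le_mul' (ENNReal.ofReal_le_ofReal h5)
        (SS_mono ?_)))
      · intro γ
        apply ENNReal.ofReal_le_ofReal
        split_ifs with g1 g2
        · exact le_rfl
        · exact absurd ⟨g1.2.1, g1.2.2⟩ g2
        · exact zero_le_one
        · exact le_rfl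
      · intro γ
        apply ENNReal.ofReal_le_ofReal
        split_ifs with g1
        · exact le_rfl
        · exact absurd hω g1
    · refine le_trans (SS_mono (g' := fun _ => 0) ?_) ?_
      · intro γ
        rw [nonpos_iff_eq_zero, ENNReal.ofReal_eq_zero]
        split_ifs with g1
        · exact absurd g1.1 hω
        · exact le_rfl
      · rw [SS_zero]
        exact bot_le

end Pool.Agent.Results.MP_4960b8_pr.LocalBalance
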