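import Pool.Agent.R965.HP.SupDom

/-!
The boundary path of the O(0) model on the honeycomb lattice, for all parameters `x` in an interval
`[x_c(0), x_1]`: the numbers of the local moves.
-/

set_option autoImplicit false

namespace Pool.Agent.Results.MP_4960b8_pr.LocalMoves

/-- Adjacency in the honeycomb lattice (brick-wall coordinates). -/
def Nbr (p q : ℤ × ℤ) : Prop :=
  (p.2 = q.2 ∧ (p.1 - q.1 = 1 ∨ q.1 - p.1 = 1)) ∨
    (p.1 = q.1 ∧ ((q.2 = p.2 + 1 ∧ Even (p.1 + p.2)) ∨ (p.2 = q.2 + 1 ∧ Even (q.1 + q.2))))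

/-- The self-avoiding trajectories from `a` to `b` in `D`, as lists of vertices. -/
def Traj (D : Set (ℤ × ℤ)) (a b : ℤ × ℤ) : Set (List (ℤ × ℤ)) :=
  {l | l.head? = some a ∧ l.getLast? = some b ∧ l.Nodup ∧ l.IsChain Nbr ∧ ∀ p ∈ l, p ∈ D}

/-- The critical point `x_c(0)`. -/
noncomputable def xc : ℝ := 1 / Real.sqrt (2 + Real.sqrt 2)

/-- The number of steps of a trajectory. -/
def steps (l : List (ℤ × ℤ)) : ℕ := l.length - 1

/-- The partition function (a finite sum if `D` is bounded). -/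
noncomputable def Z (x : ℝ) (D : Set (ℤ × ℤ)) (a b : ℤ × ℤ) : ℝ :=
  ∑ᶠ l ∈ Traj D a b, x ^ steps l

/-- The mean of `f` for the boundary path of the O(0) model with parameter `x` in `D`, from `a` to
`b`. -/
noncomputable def E (x : ℝ) (D : Set (ℤ × ℤ)) (a b : ℤ × ℤ) (f : List (ℤ × ℤ) → ℝ) : ℝ :=
  (∑ᶠ l ∈ Traj D a b, f l * x ^ steps l) / Z x D a b

/-- The position of the vertices in the plane: the honeycomb lattice with unit edge length (`Nbr p q`
if and only if the points `emb p` and `emb q` have distance `1`). -/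
noncomputable def emb (v : ℤ × ℤ) : ℂ :=
  ⟨Real.sqrt 3 / 2 * v.1, 3 / 2 * v.2 + if Even (v.1 + v.2) then 1 / 2 else 0⟩

/-- The coordinate in the direction `u = exp (- i π / 6)`, one of the directions of the edges. -/
noncomputable def lv (z : ℂ) : ℝ := (Real.sqrt 3 * z.re - z.im) / 2

/-- The open half-disc with centre `a` and radius `r` on the side `ε u` of `a` (`ε = 1` or
`ε = -1`). -/
def HD (a : ℂ) (ε r : ℝ) : Set ℂ := {z | ‖z - a‖ < r ∧ 0 < ε * (lv z - lv a)}

/-- The vertices in the half-disc (with its diameter) with centre `δ p` and radius `r`, on the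
side `ε u` of `p`, for the lattice with mesh `δ`. -/
def Hd (δ ε r : ℝ) (p : ℤ × ℤ) : Set (ℤ × ℤ) :=
  {v | ‖(δ : ℂ) * emb v - δ * emb p‖ < r ∧ 0 ≤ ε * (lv (emb v) - lv (emb p))}

/-- `p` is the lattice point with an edge in the direction `- ε u`: a boundary vertex of a half-plane
on the side `ε u`. -/
def Bd (ε : ℝ) (p : ℤ × ℤ) : Prop :=
  (ε = 1 ∧ Odd (p.1 + p.2)) ∨ (ε = -1 ∧ Even (p.1 + p.2))

/-- `U` consists of three consecutive vertices `p, q, r` of a hexagon and `U'` is the other path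
`p, x, y, z, r` from `p` to `r` along the hexagon. -/
def HexPair (U U' : List (ℤ × ℤ)) : Prop :=
  ∃ p q r x y z, U = [p, q, r] ∧ U' = [p, x, y, z, r] ∧ U.IsChain Nbr ∧ U'.IsChain Nbr ∧
    [p, q, r, z, y, x].Nodup

/-- The number of the ways to replace in `l` two consecutive edges by the four other edges of a
hexagon, such that the new vertices are in `D` and not in `l`. -/
noncomputable def up (D : Set (ℤ × ℤ)) (l : List (ℤ × ℤ)) : ℕ :=
  {u : List (ℤ × ℤ) × List (ℤ × ℤ) | HexPair u.1 u.2 ∧ u.1 <:+: l ∧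
    ∀ v ∈ u.2, v ∈ D ∧ (v ∈ u.1 ∨ v ∉ l)}.ncard

/-- The number of the ways to replace in `l` four consecutive edges by the two other edges of a
hexagon, such that the new vertex is in `D` and not in `l`. -/
noncomputable def down (D : Set (ℤ × ℤ)) (l : List (ℤ × ℤ)) : ℕ :=
  {u : List (ℤ × ℤ) × List (ℤ × ℤ) | HexPair u.1 u.2 ∧ u.2 <:+: l ∧
    ∀ v ∈ u.1, v ∈ D ∧ (v ∈ u.2 ∨ v ∉ l)}.ncard

open Classical in
/-- **Theorem.** There are `x₁ > x_c(0) = 1 / √(2 + √2)` and `N` with the following property. Let `W`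
be a connected open set of the plane, `a ≠ b` points such that `W` contains a half-disc with centre
`a` on the side `ε u` and a half-disc with centre `b` on the side `ε' u` (for instance interior
points of `W`, or boundary points at which the boundary is a segment orthogonal to `u`), and `M` a
real number.  There are a compact set `K` contained in `W` and `C ≥ 1` such that for every mesh
`δ ≤ 1 / C`, every set `D` of vertices such that `δ D` lies in the disc of radius `M`, all boundary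
vertices `p` and `q` with `δ p` and `δ q` at distance at most `1 / C` of `a` and `b`, such that `D`
contains the vertices of `K` and the half-discs of `p` and `q`, and every `x` with
`x_c(0) ≤ x ≤ x₁`, the boundary path `γ` of the O(0) model with parameter `x` in `D` from `p` to `q`
has the following properties.
(1) With probability at least `1 - exp (- 1 / (C δ))`, the number of the ways to make `γ` longer and
the number of the ways to make `γ` shorter, inside `D`, by a change at one hexagon, are both larger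
than `|γ| / N`.
(2) The quotient of these two numbers converges to `x⁻²`: for `0 < t ≤ 1`, with probability at least
`1 - C δ / t²` one has `down > 0` and `|up / down - x⁻²| ≤ t`. -/
theorem result : ∃ (x₁ : ℝ) (N : ℕ), xc < x₁ ∧ 1 ≤ N ∧
    ∀ (W : Set ℂ), IsOpen W → IsConnected W → ∀ (a b : ℂ), a ≠ b →
    ∀ (ε ε' : ℝ), (ε = 1 ∨ ε = -1) → (ε' = 1 ∨ ε' = -1) → ∀ (r : ℝ), 0 < r →
    HD a ε r ⊆ W → HD b ε' r ⊆ W → ∀ (M : ℝ),
    ∃ K : Set ℂ, K ⊆ W ∧ IsCompact K ∧ ∃ C : ℝ, 1 ≤ C ∧ ∀ δ : ℝ, 0 < δ → C * δ ≤ 1 →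
      ∀ (D : Set (ℤ × ℤ)) (p q : ℤ × ℤ), Bd ε p → Bd ε' q →
      C * ‖(δ : ℂ) * emb p - a‖ ≤ 1 → C * ‖(δ : ℂ) * emb q - b‖ ≤ 1 →
      (∀ v : ℤ × ℤ, (δ : ℂ) * emb v ∈ K → v ∈ D) → Hd δ ε r p ⊆ D → Hd δ ε' r q ⊆ D →
      (∀ v ∈ D, ‖(δ : ℂ) * emb v‖ ≤ M) →
      ∀ x : ℝ, xc ≤ x → x ≤ x₁ →
      (Traj D p q).Finite ∧ 0 < Z x D p q ∧
      E x D p q (fun l => if N * up D l ≤ steps l ∨ N * down D l ≤ steps l then 1 else 0) ≤
        Real.exp (-(1 / (C * δ))) ∧
      ∀ t : ℝ, 0 < t → t ≤ 1 →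
        E x D p q (fun l => if |(up D l : ℝ) - (1 / x) ^ 2 * (down D l : ℝ)| ≤
          t * (down D l : ℝ) ∧ 0 < down D l then 0 else 1) ≤ C * δ / t ^ 2 := by
  obtain ⟨X, N, hX, hN, h0⟩ := Pool.Agent.R965.HP.sup_core
  refine ⟨X, N, hX, hN, ?_⟩
  intro W hW hc a b hab ε ε' hε hε' r hr ha hb M
  obtain ⟨K, h1, h2, C, hC, h⟩ := h0 W hW hc a b hab ε ε' hε hε' r hr ha hb M
  refine ⟨K, h1, h2, C, hC, ?_⟩
  intro δ hδ hCδ D p q hp hq hpa hqb hKD hpD hqD hDM x hx1 hx2
  obtain ⟨g1, g2, g3, g4, g5, g6⟩ := h δ hδ hCδ D p q hp hq hpa hqb hKD hpD hqD hDM x hx1 hx2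
  refine ⟨g1, g2, ?_, fun t ht ht1 => ?_⟩
  · refine le_trans (le_of_eq ?_) g5
    show Pool.Agent.R965.HP.Ex x D p q _ = _
    congr 1
  · have h3 := g6 t ht ht1
    refine le_trans (le_of_eq ?_) h3
    show Pool.Agent.R965.HP.Ex x D p q _ = _
    congr 1

end Pool.Agent.Results.MP_4960b8_pr.LocalMoves
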