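import Pool.Agent.R644.SP.Disp

/-!
The boundary path of the O(n) model for `n = 0`, `x = x_c(0)` (critical self-avoiding walk on the
honeycomb lattice) in discrete domains of arbitrary shape with mesh `δ`: the moments of the
displacements over `m` steps, at all mesoscopic scales `m`.
-/

set_option autoImplicit false

namespace Pool.Agent.Results.MP_4960b8_pr.MesoscopicMoments

open scoped ENNReal

/-- Adjacency in the honeycomb lattice (brick-wall coordinates). -/
def Nbr (p q : ℤ × ℤ) : Prop :=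
  (p.2 = q.2 ∧ (p.1 - q.1 = 1 ∨ q.1 - p.1 = 1)) ∨
    (p.1 = q.1 ∧ ((q.2 = p.2 + 1 ∧ Even (p.1 + p.2)) ∨ (p.2 = q.2 + 1 ∧ Even (q.1 + q.2))))

/-- The self-avoiding trajectories from `a` to `b` in `D`, as lists of vertices. -/
def Traj (D : Set (ℤ × ℤ)) (a b : ℤ × ℤ) : Set (List (ℤ × ℤ)) :=
  {l | l.head? = some a ∧ l.getLast? = some b ∧ l.Nodup ∧ l.IsChain Nbr ∧ ∀ p ∈ l, p ∈ D}

/-- The critical fugacity `1 / μ`. -/
noncomputable def xc : ℝ≥0∞ := ENNReal.ofReal (1 / Real.sqrt (2 + Real.sqrt 2))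

/-- The critical partition function: the sum of `xc ^ (number of steps)` over the trajectories. -/
noncomputable def Z (D : Set (ℤ × ℤ)) (a b : ℤ × ℤ) : ℝ≥0∞ :=
  ∑' l : Traj D a b, xc ^ (l.1.length - 1)

/-- The probability that the critical trajectory in `D` from `a` to `b` has the property `E`. -/
noncomputable def P (D : Set (ℤ × ℤ)) (a b : ℤ × ℤ) (E : List (ℤ × ℤ) → Prop) : ℝ≥0∞ :=
  (∑' l : {l : List (ℤ × ℤ) // l ∈ Traj D a b ∧ E l}, xc ^ (l.1.length - 1)) / Z D a b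

/-- The position of the vertices in the plane: the honeycomb lattice with unit edge length (`Nbr p q`
if and only if the points `emb p` and `emb q` have distance `1`). -/
noncomputable def emb (v : ℤ × ℤ) : ℂ :=
  ⟨Real.sqrt 3 / 2 * v.1, 3 / 2 * v.2 + if Even (v.1 + v.2) then 1 / 2 else 0⟩

/-- The coordinate in the direction `u = exp (- i π / 6)`, one of the directions of the edges. -/
noncomputable def lv (z : ℂ) : ℝ := (Real.sqrt 3 * z.re - z.im) / 2

/-- The open half-disc with centre `a` and radius `r` on the side `ε u` of `a` (`ε = 1` or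
`ε = -1`). -/
def HD (a : ℂ) (ε r : ℝ) : Set ℂ := {z | ‖z - a‖ < r ∧ 0 < ε * (lv z - lv a)}

/-- The vertices in the half-disc (with its diameter) with centre `δ p` and radius `r`, on the
side `ε u` of `p`, for the lattice with mesh `δ`. -/
def Hd (δ ε r : ℝ) (p : ℤ × ℤ) : Set (ℤ × ℤ) :=
  {v | ‖(δ : ℂ) * emb v - δ * emb p‖ < r ∧ 0 ≤ ε * (lv (emb v) - lv (emb p))}

/-- `p` is the lattice point with an edge in the direction `- ε u`: a boundary vertex of a half-plane
on the side `ε u`. -/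
def Bd (ε : ℝ) (p : ℤ × ℤ) : Prop :=
  (ε = 1 ∧ Odd (p.1 + p.2)) ∨ (ε = -1 ∧ Even (p.1 + p.2))

/-- The sum over the times `j` of the powers `|γ (j + m) - γ j| ^ s` of the displacements over `m`
steps of the path `l` (at most as many terms as the path has steps if `m ≥ 1`). -/
noncomputable def disp (s : ℝ) (m : ℕ) (l : List (ℤ × ℤ)) : ℝ :=
  ∑ j ∈ Finset.range (l.length - m), ‖emb (l.getD j (0, 0)) - emb (l.getD (j + m) (0, 0))‖ ^ s

/-- **Theorem.** Let `W` be a connected open set of the plane, `a ≠ b` points such that `W` contains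
a half-disc with centre `a` on the side `ε u` and a half-disc with centre `b` on the side `ε' u`,
`M` a real number and `s > 0`.  There are a compact set `K` contained in `W` and `c > 0`, `C ≥ 1`
such that for every mesh `δ ≤ 1 / C`, every set `D` of vertices such that `δ D` lies in the disc of
radius `M`, all vertices `p` and `q` with the parities of boundary vertices of half-planes on the
sides `ε u` and `ε' u` and with `δ p` and `δ q` at distance at most `1 / C` of `a` and `b`, such that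
`D` contains the vertices of `K` and the half-discs of `p` and `q`, and all
`C ≤ m ≤ δ⁻¹ / (C (log (1/δ))^2)`: the critical self-avoiding walk `γ` in `D` from `p` to `q` with
`ℓ` steps satisfies
`∑_j |γ (j + m) - γ j| ^ s ≤ 2 m ^ (s (1 - c / log log m)) ℓ` except with probability at most
`exp (- c / (δ m))`. -/
theorem result (W : Set ℂ) (hW : IsOpen W) (hc : IsConnected W) (a b : ℂ) (hab : a ≠ b)
    (ε ε' : ℝ) (hε : ε = 1 ∨ ε = -1) (hε' : ε' = 1 ∨ ε' = -1) (r : ℝ) (hr : 0 < r)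
    (ha : HD a ε r ⊆ W) (hb : HD b ε' r ⊆ W) (M s : ℝ) (hs : 0 < s) :
    ∃ K : Set ℂ, K ⊆ W ∧ IsCompact K ∧ ∃ c C : ℝ, 0 < c ∧ 1 ≤ C ∧ ∀ δ : ℝ, 0 < δ → C * δ ≤ 1 →
      ∀ (D : Set (ℤ × ℤ)) (p q : ℤ × ℤ), Bd ε p → Bd ε' q →
      C * ‖(δ : ℂ) * emb p - a‖ ≤ 1 → C * ‖(δ : ℂ) * emb q - b‖ ≤ 1 →
      (∀ v : ℤ × ℤ, (δ : ℂ) * emb v ∈ K → v ∈ D) → Hd δ ε r p ⊆ D → Hd δ ε' r q ⊆ D →
      (∀ v ∈ D, ‖(δ : ℂ) * emb v‖ ≤ M) →
      0 < Z D p q ∧ Z D p q < ⊤ ∧ ∀ m : ℕ, C ≤ m → C * (m * Real.log (1 / δ) ^ 2) ≤ 1 / δ →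
        P D p q (fun l => 2 * ((m : ℝ) ^ (1 - c / Real.log (Real.log m))) ^ s *
            ((l.length - 1 : ℕ) : ℝ) < disp s m l) ≤
          ENNReal.ofReal (Real.exp (-(c / (δ * m)))) := by
  obtain ⟨K, h1, h2, c, C, hc0, hC, h⟩ := Pool.Agent.R644.SP.fin_disp
    Pool.Agent.R644.SP.s_cn Pool.Agent.Y981.QB.s_ld W hW hc a b hab ε ε' hε hε' r hr ha hb M s hs
  refine ⟨K, h1, h2, c, C, hc0, hC, ?_⟩
  intro δ hδ hCδ D p q hp hq hpa hqb hKD hpD hqD hDM
  obtain ⟨g1, g2, g3⟩ := h δ hδ hCδ D p q hp hq hpa hqb hKD hpD hqD hDM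
  refine ⟨g1, g2, fun m hCm hmδ => ?_⟩
  have e : disp s m = Pool.Agent.R644.SP.dsum s m := by
    funext l
    unfold disp Pool.Agent.R644.SP.dsum
    refine Finset.sum_congr rfl fun j _ => ?_
    rw [Pool.Agent.Y981.QB.dst_emb]
    rfl
  rw [e]
  exact g3 m hCm hmδ

end Pool.Agent.Results.MP_4960b8_pr.MesoscopicMoments
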